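import Pool.Agent.R140.Ear.Main

set_option autoImplicit false

/-!
# MP_cf6e1a_co, Q1: the answer is no

A pure 3-dimensional simplicial complex with a convex ear decomposition which is not shellable.
-/

namespace Pool.Agent.Results.MP_cf6e1a_co.NotShellable

open Pool.Agent.R140.Ear

theorem result : ∃ (X : Cplx) (m : ℕ) (E : ℕ → Cplx), PureDim 4 X ∧
    IsConvexEarDecomposition 4 X m E ∧ ¬ Shellable X :=
  Pool.Agent.R140.Ear.main

end Pool.Agent.Results.MP_cf6e1a_co.NotShellable
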